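import Mathlib

/-!
MODULE K/Blow (M, only Mathlib).  Boxes in dense sets of `m`-tuples.

For a finite type `X` with `x` elements, `Q ⊆ X ^ m` (functions `Fin m → X`) and a finite type `Λ`
with `ℓ ≥ 1` elements let `b(Q)` be the number of `V : Fin m → Λ → X` all of whose transversals are
in `Q`.  Claim (real numbers, `x > 0`): `b(Q) / x ^ (m ℓ) ≥ (|Q| / x ^ m) ^ (ℓ ^ m)`.
Induction on `m`.  `m = 0`: both sides are `1` or `0` together.  Step: split off the last (or the
first) coordinate.  For `y : Λ → X` let `Q_y = {z : Fin m → X | ∀ b, (z, y b) ∈ Q}`.  Then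
`b(Q) = ∑_y b(Q_y)` (a box for `Q` is a `y` together with a box for `Q_y`, use `Fin.consEquiv` or
`Fin.snocEquiv`), and `∑_y |Q_y| = ∑_z d(z) ^ ℓ` where `d(z) = |{y : X | (z, y) ∈ Q}|`.  By the power
mean inequality (`inner_le_nnorm...` or `Real.pow_arith_mean_le_arith_mean_pow`,
`Real.pow_sum_div_card_le_sum_pow`) the average over `z` of `(d(z) / x) ^ ℓ` is at least
`(|Q| / x ^ (m+1)) ^ ℓ`.  By induction and the power mean inequality again, with exponent `ℓ ^ m`:
`b(Q) / x ^ ((m+1) ℓ) = avg_y (b(Q_y) / x ^ (m ℓ)) ≥ avg_y (|Q_y| / x ^ m) ^ (ℓ ^ m)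
 ≥ (avg_y |Q_y| / x ^ m) ^ (ℓ ^ m) ≥ ((|Q| / x ^ (m+1)) ^ ℓ) ^ (ℓ ^ m)`.
The statement in natural numbers follows with `B' = B ^ (ℓ ^ m)` (for `n = 0` and `m ≥ 1` the left
side is `0` or ... `n ^ (m ℓ) = 0` as `ℓ ≥ 1`; for `m = 0` it is `1 ≤ B' * 1`, as `Q` is nonempty).
-/

open Finset
open scoped Classical

namespace Pool.Agent.Work.MP_73831e_pr.F

/-- the boxes of a set of tuples -/
private noncomputable def bx {m n : ℕ} {Λ : Type} [Fintype Λ] (Q : Finset (Fin m → Fin n)) :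
    Finset (Fin m → Λ → Fin n) :=
  univ.filter (fun V : Fin m → Λ → Fin n => ∀ α : Fin m → Λ, (fun i => V i (α i)) ∈ Q)

/-- the section over a tuple of first coordinates -/
private noncomputable def scn {m n : ℕ} {Λ : Type} [Fintype Λ] (Q : Finset (Fin (m + 1) → Fin n))
    (y : Λ → Fin n) : Finset (Fin m → Fin n) :=
  univ.filter (fun z : Fin m → Fin n => ∀ b, (Fin.cons (y b) z : Fin (m + 1) → Fin n) ∈ Q)

/-- the fibre -/
private noncomputable def fib {m n : ℕ} (Q : Finset (Fin (m + 1) → Fin n)) (z : Fin m → Fin n) :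
    Finset (Fin n) :=
  univ.filter (fun x : Fin n => (Fin.cons x z : Fin (m + 1) → Fin n) ∈ Q)

private theorem card_bx {m n : ℕ} {Λ : Type} [Fintype Λ] (Q : Finset (Fin (m + 1) → Fin n)) :
    (bx (Λ := Λ) Q).card = ∑ y : Λ → Fin n, (bx (Λ := Λ) (scn Q y)).card := by
  rw [← Finset.card_sigma]
  refine Finset.card_nbij' (fun V => ⟨V 0, fun i => V i.succ⟩)
    (fun p => Fin.cons p.1 p.2) ?_ ?_ ?_ ?_
  · intro V hV
    rw [Finset.mem_coe, bx, Finset.mem_filter] at hV
    rw [Finset.mem_coe, Finset.mem_sigma]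
    refine ⟨mem_univ _, ?_⟩
    rw [bx, Finset.mem_filter]
    refine ⟨mem_univ _, fun α => ?_⟩
    rw [scn, Finset.mem_filter]
    refine ⟨mem_univ _, fun b => ?_⟩
    have h1 := hV.2 (Fin.cons b α)
    convert h1 using 1
    funext i
    refine Fin.cases ?_ (fun j => ?_) i
    · simp
    · simp
  · intro p hp
    rw [Finset.mem_coe, Finset.mem_sigma] at hp
    rw [Finset.mem_coe, bx, Finset.mem_filter]
    refine ⟨mem_univ _, fun α => ?_⟩
    have h1 := hp.2
    rw [bx, Finset.mem_filter] at h1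
    have h2 := h1.2 (fun i => α i.succ)
    rw [scn, Finset.mem_filter] at h2
    have h3 := h2.2 (α 0)
    convert h3 using 1
    funext i
    refine Fin.cases ?_ (fun j => ?_) i
    · simp
    · simp
  · intro V _
    funext i
    refine Fin.cases ?_ (fun j => ?_) i
    · simp
    · simp
  · rintro ⟨y, W⟩ _
    simp

private theorem card_scn {m n : ℕ} {Λ : Type} [Fintype Λ] (Q : Finset (Fin (m + 1) → Fin n)) :
    ∑ y : Λ → Fin n, (scn Q y).card = ∑ z : Fin m → Fin n, (fib Q z).card ^ Fintype.card Λ := by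
  have h1 : ∀ y : Λ → Fin n, (scn Q y).card = ∑ z : Fin m → Fin n,
      if (∀ b, (Fin.cons (y b) z : Fin (m + 1) → Fin n) ∈ Q) then 1 else 0 := fun y => by
    rw [scn, Finset.card_filter]
  simp_rw [h1]
  rw [Finset.sum_comm]
  refine Finset.sum_congr rfl fun z _ => ?_
  rw [← Finset.card_filter]
  have h2 : (univ.filter fun y : Λ → Fin n => ∀ b, (Fin.cons (y b) z : Fin (m + 1) → Fin n) ∈ Q) =
      Fintype.piFinset (fun _ : Λ => fib Q z) := by
    ext y
    rw [Finset.mem_filter, Fintype.mem_piFinset]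
    simp only [fib, mem_univ, true_and, Finset.mem_filter]
  rw [h2, Fintype.card_piFinset, Finset.prod_const, Finset.card_univ]

private theorem card_fib {m n : ℕ} (Q : Finset (Fin (m + 1) → Fin n)) :
    Q.card = ∑ z : Fin m → Fin n, (fib Q z).card := by
  rw [← Finset.card_sigma]
  refine Finset.card_nbij' (fun w => ⟨fun i => w i.succ, w 0⟩)
    (fun p => Fin.cons p.2 p.1) ?_ ?_ ?_ ?_
  · intro w hw
    rw [Finset.mem_coe] at hw
    rw [Finset.mem_coe, Finset.mem_sigma]
    refine ⟨mem_univ _, ?_⟩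
    rw [fib, Finset.mem_filter]
    refine ⟨mem_univ _, ?_⟩
    convert hw using 1
    funext i
    refine Fin.cases ?_ (fun j => ?_) i
    · simp
    · simp
  · intro p hp
    rw [Finset.mem_coe, Finset.mem_sigma] at hp
    have h1 := hp.2
    rw [fib, Finset.mem_filter] at h1
    exact h1.2
  · intro w _
    funext i
    refine Fin.cases ?_ (fun j => ?_) i
    · simp
    · simp
  · rintro ⟨z, x⟩ _
    simp

private theorem blow_aux {n : ℕ} (Λ : Type) [Fintype Λ] [Nonempty Λ] : ∀ (m : ℕ)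
    (Q : Finset (Fin m → Fin n)),
    Q.card ^ (Fintype.card Λ ^ m) * n ^ (m * Fintype.card Λ) ≤
      n ^ (m * Fintype.card Λ ^ m) * (bx (Λ := Λ) Q).card := by
  intro m
  induction m with
  | zero =>
    intro Q
    simp only [pow_zero, pow_one, zero_mul, mul_one, one_mul]
    have h1 : Q.card ≤ 1 := by
      have := Finset.card_le_univ Q
      simpa using this
    rcases Nat.eq_zero_or_pos Q.card with h0 | h0
    · rw [h0]
      exact Nat.zero_le _
    · refine h1.trans ?_
      obtain ⟨q, hq⟩ := Finset.card_pos.1 h0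
      refine Finset.card_pos.2 ⟨fun i => i.elim0, ?_⟩
      rw [bx, Finset.mem_filter]
      refine ⟨mem_univ _, fun α => ?_⟩
      convert hq
  | succ m ih =>
    intro Q
    obtain ⟨l, hl⟩ : ∃ l, Fintype.card Λ = l + 1 :=
      ⟨Fintype.card Λ - 1, by have := Fintype.card_pos (α := Λ); omega⟩
    obtain ⟨L, hL⟩ : ∃ L, Fintype.card Λ ^ m = L + 1 :=
      ⟨Fintype.card Λ ^ m - 1, by
        have : 0 < Fintype.card Λ ^ m := pow_pos Fintype.card_pos m
        omega⟩
    -- power mean over the fibres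
    have s1 : Q.card ^ Fintype.card Λ ≤ (n ^ m) ^ l * ∑ y : Λ → Fin n, (scn Q y).card := by
      rw [card_scn, card_fib Q, hl]
      have h := pow_sum_le_card_mul_sum_pow (s := (univ : Finset (Fin m → Fin n)))
        (f := fun z => (fib Q z).card) (fun _ _ => Nat.zero_le _) l
      have h2 : (univ : Finset (Fin m → Fin n)).card = n ^ m := by simp
      rw [h2] at h
      exact_mod_cast h
    -- power mean over the sections
    have s2 : (∑ y : Λ → Fin n, (scn Q y).card) ^ (L + 1) ≤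
        (n ^ Fintype.card Λ) ^ L * ∑ y : Λ → Fin n, (scn Q y).card ^ (L + 1) := by
      have h := pow_sum_le_card_mul_sum_pow (s := (univ : Finset (Λ → Fin n)))
        (f := fun y => (scn Q y).card) (fun _ _ => Nat.zero_le _) L
      have h2 : (univ : Finset (Λ → Fin n)).card = n ^ Fintype.card Λ := by simp
      rw [h2] at h
      exact_mod_cast h
    have s3 : (∑ y : Λ → Fin n, (scn Q y).card ^ (L + 1)) * n ^ (m * Fintype.card Λ) ≤
        n ^ (m * (L + 1)) * (bx (Λ := Λ) Q).card := by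
      rw [card_bx, Finset.sum_mul, Finset.mul_sum]
      refine Finset.sum_le_sum fun y _ => ?_
      have := ih (scn Q y)
      rwa [hL] at this
    have e1 : Fintype.card Λ ^ (m + 1) = (l + 1) * (L + 1) := by
      rw [pow_succ, hL, hl, mul_comm]
    rw [e1]
    calc Q.card ^ ((l + 1) * (L + 1)) * n ^ ((m + 1) * Fintype.card Λ)
        = (Q.card ^ Fintype.card Λ) ^ (L + 1) * n ^ ((m + 1) * Fintype.card Λ) := by
          rw [pow_mul, hl]
      _ ≤ ((n ^ m) ^ l * ∑ y : Λ → Fin n, (scn Q y).card) ^ (L + 1) *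
            n ^ ((m + 1) * Fintype.card Λ) := by gcongr
      _ = ((n ^ m) ^ l) ^ (L + 1) * n ^ ((m + 1) * Fintype.card Λ) *
            (∑ y : Λ → Fin n, (scn Q y).card) ^ (L + 1) := by ring
      _ ≤ ((n ^ m) ^ l) ^ (L + 1) * n ^ ((m + 1) * Fintype.card Λ) *
            ((n ^ Fintype.card Λ) ^ L * ∑ y : Λ → Fin n, (scn Q y).card ^ (L + 1)) := by gcongr
      _ = ((n ^ m) ^ l) ^ (L + 1) * n ^ Fintype.card Λ * (n ^ Fintype.card Λ) ^ L *
            ((∑ y : Λ → Fin n, (scn Q y).card ^ (L + 1)) * n ^ (m * Fintype.card Λ)) := by ring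
      _ ≤ ((n ^ m) ^ l) ^ (L + 1) * n ^ Fintype.card Λ * (n ^ Fintype.card Λ) ^ L *
            (n ^ (m * (L + 1)) * (bx (Λ := Λ) Q).card) := by gcongr
      _ = n ^ ((m + 1) * ((l + 1) * (L + 1))) * (bx (Λ := Λ) Q).card := by
          rw [hl]
          ring

theorem blow (m B : ℕ) (Λ : Type) [Fintype Λ] [Nonempty Λ] : ∃ B' : ℕ, ∀ n : ℕ,
    ∀ Q : Finset (Fin m → Fin n), n ^ m ≤ B * Q.card →
      n ^ (m * Fintype.card Λ) ≤ B' * (univ.filter (fun V : Fin m → Λ → Fin n =>
        ∀ α : Fin m → Λ, (fun i => V i (α i)) ∈ Q)).card := by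
  refine ⟨B ^ (Fintype.card Λ ^ m), fun n Q hQ => ?_⟩
  change n ^ (m * Fintype.card Λ) ≤ B ^ (Fintype.card Λ ^ m) * (bx (Λ := Λ) Q).card
  have hl : 0 < Fintype.card Λ := Fintype.card_pos
  have h1 := blow_aux Λ m Q
  have h2 : n ^ (m * Fintype.card Λ ^ m) ≤
      B ^ (Fintype.card Λ ^ m) * Q.card ^ (Fintype.card Λ ^ m) := by
    rw [← mul_pow, pow_mul]
    exact Nat.pow_le_pow_left hQ _
  rcases Nat.eq_zero_or_pos (n ^ (m * Fintype.card Λ ^ m)) with h0 | h0
  · have hn : n = 0 ∧ m * Fintype.card Λ ^ m ≠ 0 := by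
      simpa [pow_eq_zero_iff'] using h0
    have hm : m * Fintype.card Λ ≠ 0 := by
      have : m ≠ 0 := left_ne_zero_of_mul hn.2
      exact mul_ne_zero this hl.ne'
    have h3 : n ^ (m * Fintype.card Λ) = 0 := by
      rw [pow_eq_zero_iff hm]
      exact hn.1
    omega
  · refine Nat.le_of_mul_le_mul_left (c := n ^ (m * Fintype.card Λ ^ m)) ?_ h0
    calc n ^ (m * Fintype.card Λ ^ m) * n ^ (m * Fintype.card Λ)
        ≤ (B ^ (Fintype.card Λ ^ m) * Q.card ^ (Fintype.card Λ ^ m)) *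
            n ^ (m * Fintype.card Λ) := by gcongr
      _ = B ^ (Fintype.card Λ ^ m) * (Q.card ^ (Fintype.card Λ ^ m) *
            n ^ (m * Fintype.card Λ)) := by ring
      _ ≤ B ^ (Fintype.card Λ ^ m) * (n ^ (m * Fintype.card Λ ^ m) *
            (bx (Λ := Λ) Q).card) := by gcongr
      _ = n ^ (m * Fintype.card Λ ^ m) * (B ^ (Fintype.card Λ ^ m) * (bx (Λ := Λ) Q).card) := by
          ring

end Pool.Agent.Work.MP_73831e_pr.F
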