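import Mathlib

/-!
MODULE K/Box (S, only Mathlib).  If all transversals of `F : Fin m → Λ → Fin (m + 1)` are injective,
then at most one row is not constant.

The images `S i` of the rows are pairwise disjoint (if `F i x = F i' y`, `i ≠ i'`, take a transversal
through `(i, x)` and `(i', y)`), nonempty, and contained in `Fin (m + 1)`.  If two different rows
`i₁, i₂` were not constant, then `∑ |S i| ≥ m + 2 > m + 1`.  So there is at most one non-constant
row; take it as `i` (any `i` if there is none; `m ≥ 1`).
-/

open Finset
open scoped Classical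

namespace Pool.Agent.Work.MP_73831e_pr.F

private theorem ne_of_tr {m : ℕ} {Λ : Type} {F : Fin m → Λ → Fin (m + 1)}
    (h : ∀ α : Fin m → Λ, Function.Injective (fun i => F i (α i))) {i j : Fin m} (hij : i ≠ j)
    (x y : Λ) : F i x ≠ F j y := by
  intro he
  have h1 := h (fun k => if k = i then x else y)
  have h2 : (fun k => F k (if k = i then x else y)) i = (fun k => F k (if k = i then x else y)) j := by
    simp only [if_true, if_neg hij.symm]
    exact he
  exact hij (h1 h2)

theorem box_mono {m : ℕ} (hm : 1 ≤ m) {Λ : Type} [Fintype Λ] [Nonempty Λ]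
    (F : Fin m → Λ → Fin (m + 1))
    (h : ∀ α : Fin m → Λ, Function.Injective (fun i => F i (α i))) :
    ∃ i, ∀ j, j ≠ i → ∀ x y, F j x = F j y := by
  by_contra hcon
  push Not at hcon
  obtain ⟨j1, -, x1, y1, h1⟩ := hcon ⟨0, hm⟩
  obtain ⟨j2, hj, x2, y2, h2⟩ := hcon j1
  let α : Fin m → Λ := fun k => if k = j1 then x1 else x2
  let g : Option (Option (Fin m)) → Fin (m + 1) := fun o =>
    match o with
    | none => F j1 y1
    | some none => F j2 y2
    | some (some i) => F i (α i)
  have hg : Function.Injective g := by
    have a1 : F j1 y1 ≠ F j2 y2 := ne_of_tr h hj.symm _ _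
    have a2 : ∀ i, F j1 y1 ≠ F i (α i) := by
      intro i
      by_cases hi : i = j1
      · subst hi
        simp only [α, if_true]
        exact h1.symm
      · exact ne_of_tr h (Ne.symm hi) _ _
    have a3 : ∀ i, F j2 y2 ≠ F i (α i) := by
      intro i
      by_cases hi : i = j2
      · subst hi
        simp only [α, if_neg hj]
        exact h2.symm
      · exact ne_of_tr h (Ne.symm hi) _ _
    rintro (_ | _ | i) (_ | _ | j) he
    · rfl
    · exact absurd he a1
    · exact absurd he (a2 j)
    · exact absurd he.symm a1
    · rfl
    · exact absurd he (a3 j)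
    · exact absurd he.symm (a2 i)
    · exact absurd he.symm (a3 i)
    · have : i = j := h α he
      rw [this]
  have hc := Fintype.card_le_of_injective g hg
  simp at hc

end Pool.Agent.Work.MP_73831e_pr.F
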