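import Pool.Agent.Work.MP_73831e_pr.F.Defs

/-!
MODULE K/CluE (M).  Graphs whose colourings form at most `R` clusters have at least `n / K'` edges.

Take `K' = 4 K + 1` (say), `n ≥ 4 K (2 R + 1)`.  Suppose `K' |E| < n`.  At most `2 |E| < n / (2 K)`
vertices are not isolated, so every set `C r 0` contains at least `n / K - n / (2 K) ≥ 2 R` isolated
vertices.  Choose successively `2 R` distinct isolated vertices `p r, q r ∈ C r 0` (`r < R`).  Let `f`
be a proper colouring and let `g` be `f` with `g (p r) = 0`, `g (q r) = 1` for all `r`; it is proper,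
as only colours of isolated vertices have been changed.  It is not constant on any `C r 0`, so
`Cst (C r) g` is false for every `r`: contradiction.  (`m ≥ 1`, so `0 ≠ 1` in `Fin (m + 1)` and
`0 : Fin m` exists.)
-/

open Finset
open scoped Classical Nat

namespace Pool.Agent.Work.MP_73831e_pr.F

private theorem nonIso_card' {n : ℕ} (E : Finset (Pr n)) :
    (univ.filter (fun v : Fin n => ¬ iso (gr E) v)).card ≤ 2 * E.card := by
  have h1 : univ.filter (fun v : Fin n => ¬ iso (gr E) v) ⊆ E.biUnion (fun e => e.1.toFinset) := by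
    intro v hv
    rw [mem_filter] at hv
    have h2 := hv.2
    unfold iso at h2
    push Not at h2
    obtain ⟨u, hu⟩ := h2
    obtain ⟨e, he, hes⟩ := gr_adj'.1 hu
    rw [mem_biUnion]
    refine ⟨e, he, ?_⟩
    rw [hes, Sym2.mem_toFinset]
    exact Sym2.mem_mk_left v u
  refine (card_le_card h1).trans (card_biUnion_le.trans ?_)
  rw [mul_comm, ← smul_eq_mul, ← sum_const]
  refine sum_le_sum fun e _ => ?_
  exact (Sym2.card_toFinset_of_not_isDiag e.1 e.2).le

private theorem sel {α ι : Type} (D : ι → Finset α) (R : ℕ) (hD : ∀ r, 2 * R ≤ (D r).card)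
    (T : Finset ι) : T.card ≤ R → ∃ P Q : Finset α, Disjoint P Q ∧ (P ∪ Q).card ≤ 2 * T.card ∧
      ∀ r ∈ T, (∃ p ∈ D r, p ∈ P) ∧ ∃ q ∈ D r, q ∈ Q := by
  induction T using Finset.induction_on with
  | empty =>
    intro _
    exact ⟨∅, ∅, disjoint_empty_left _, by simp, fun r hr => absurd hr (notMem_empty r)⟩
  | insert x T hx ih =>
    intro hT
    rw [card_insert_of_notMem hx] at hT
    obtain ⟨P, Q, hPQ, hc, hr⟩ := ih (by omega)
    have hcard : 1 < (D x \ (P ∪ Q)).card := by
      have h1 := hD x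
      have := Finset.le_card_sdiff (P ∪ Q) (D x)
      omega
    obtain ⟨p, hp, q, hq, hpq⟩ := one_lt_card.1 hcard
    rw [mem_sdiff, mem_union, not_or] at hp hq
    refine ⟨insert p P, insert q Q, ?_, ?_, ?_⟩
    · rw [disjoint_insert_left, mem_insert, not_or]
      refine ⟨⟨hpq, hp.2.2⟩, ?_⟩
      rw [disjoint_insert_right]
      exact ⟨hq.2.1, hPQ⟩
    · have e1 : insert p P ∪ insert q Q = insert p (insert q (P ∪ Q)) := by
        ext y
        simp only [mem_union, mem_insert]
        tauto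
      rw [e1, card_insert_of_notMem hx]
      have h1 := card_insert_le p (insert q (P ∪ Q))
      have h2 := card_insert_le q (P ∪ Q)
      omega
    · intro r hrT
      rcases mem_insert.1 hrT with rfl | h
      · exact ⟨⟨p, hp.1, mem_insert_self _ _⟩, ⟨q, hq.1, mem_insert_self _ _⟩⟩
      · obtain ⟨⟨a, ha, ha'⟩, ⟨b, hb, hb'⟩⟩ := hr r h
        exact ⟨⟨a, ha, mem_insert_of_mem ha'⟩, ⟨b, hb, mem_insert_of_mem hb'⟩⟩

theorem clu_early (m R K : ℕ) (hm : 1 ≤ m) : ∃ K' n₀ : ℕ, ∀ n ≥ n₀, ∀ E : Finset (Pr n),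
    Clu m R K E → Alive (m + 1) (gr E) → n ≤ K' * E.card := by
  refine ⟨4 * K + 1, 4 * K * (R + 1) + 1, fun n hn E hE hA => ?_⟩
  by_contra hlt
  push Not at hlt
  obtain ⟨C, hC, hf⟩ := hE
  obtain ⟨f, hfp⟩ := hA
  set i0 : Fin m := ⟨0, by omega⟩
  set N₀ := univ.filter (fun v : Fin n => ¬ iso (gr E) v) with hN₀
  have hcard : ∀ r, 2 * R ≤ (C r i0 \ N₀).card := by
    intro r
    have h1 := hC r i0
    have h2 := Finset.le_card_sdiff N₀ (C r i0)
    have h3 : N₀.card ≤ 2 * E.card := nonIso_card' E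
    by_contra h4
    have h5 : (C r i0).card ≤ 2 * E.card + 2 * R := by omega
    have h6 : n ≤ K * (2 * E.card + 2 * R) := h1.trans (Nat.mul_le_mul_left K h5)
    nlinarith
  obtain ⟨P, Q, hPQ, _, hr⟩ := sel (fun r => C r i0 \ N₀) R hcard (univ : Finset (Fin R))
    (by rw [card_univ, Fintype.card_fin])
  set g : Fin n → Fin (m + 1) := fun x => if iso (gr E) x ∧ x ∈ P then 0 else
    if iso (gr E) x ∧ x ∈ Q then 1 else f x with hg
  have hgf : ∀ x, ¬ iso (gr E) x → g x = f x := by
    intro x hx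
    rw [hg]
    simp only [if_neg (fun h : iso (gr E) x ∧ x ∈ P => hx h.1),
      if_neg (fun h : iso (gr E) x ∧ x ∈ Q => hx h.1)]
  have hgp : PC (m + 1) (gr E) g := by
    intro a b hab
    have ha : ¬ iso (gr E) a := fun h => h b hab
    have hb : ¬ iso (gr E) b := fun h => h a hab.symm
    rw [hgf a ha, hgf b hb]
    exact hfp a b hab
  obtain ⟨r, π, h⟩ := hf g hgp
  obtain ⟨⟨p, hp, hpP⟩, ⟨q, hq, hqQ⟩⟩ := hr r (mem_univ r)
  rw [mem_sdiff, hN₀, mem_filter, not_and, not_not] at hp hq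
  have hpi := hp.2 (mem_univ p)
  have hqi := hq.2 (mem_univ q)
  have h1 := h i0 p hp.1
  have h2 := h i0 q hq.1
  have h3 : g p = 0 := by
    rw [hg]
    simp only [if_pos (And.intro hpi hpP)]
  have h4 : g q = 1 := by
    rw [hg]
    have hqP : ¬ (iso (gr E) q ∧ q ∈ P) := fun h => Finset.disjoint_left.1 hPQ h.2 hqQ
    simp only [if_neg hqP, if_pos (And.intro hqi hqQ)]
  rw [h3] at h1
  rw [h4, ← h1] at h2
  have h5 := congrArg Fin.val h2
  rw [Fin.val_one'] at h5
  simp only [Fin.val_zero] at h5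
  rw [Nat.mod_eq_of_lt (by omega)] at h5
  omega

end Pool.Agent.Work.MP_73831e_pr.F
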