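import Pool.Agent.Work.MP_73831e_pr.F.Defs

/-!
MODULE K/Cnt (M).  Counting good configurations with prescribed attachments.

Let `q = |J|`, `N₀ = 3 q (l + 1) = gs J l`.  Let `I` be the set of the isolated vertices of `gr E`,
`n ≤ K₄ |I|`.  The configurations `c` with all new vertices in `I` and attachments (`j a ↦ (c j a).2`)
in `𝒜` number `|I| ^ (3 q) * |𝒜| ≥ n ^ (3 q) / K₄ ^ (3 q) * n ^ (3 q l) / B = n ^ N₀ / (K₄ ^ (3 q) B)`
(a configuration is the pair of its new vertices `J → Fin 3 → Fin n` and its attachments).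
The configurations which are not good although all new vertices are isolated: two new vertices
coincide (`≤ (3 q)^2 n ^ (N₀ - 1)`), or an attachment is a new vertex (`≤ 3 q l * 3 q * n ^ (N₀ - 1)`),
or two attachments of the same new vertex coincide (`≤ 3 q l^2 n ^ (N₀ - 1)`).  (Each such condition
is a coincidence of two distinct coordinates of `c`, viewed as a function from the `N₀`-element type
`(J × Fin 3) ⊕ (J × Fin 3 × Fin l)` to `Fin n`; the number of functions with a given coincidence is
`n ^ (N₀ - 1)`.)  So for `n ≥ 2 B K₄ ^ (3 q) * ((3 q)^2 + 9 q^2 l + 3 q l^2)` at least half of the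
configurations are good: `Γ = 2 B K₄ ^ (3 q)`.
(If `q = 0` everything is trivial.)
-/

open Finset
open scoped Classical Nat

namespace Pool.Agent.Work.MP_73831e_pr.F

/-- Functions with a given coincidence. -/
private theorem cnt_coinc {X : Type} [Fintype X] (n : ℕ) (x y : X) (hxy : x ≠ y) :
    n * (univ.filter (fun f : X → Fin n => f x = f y)).card ≤ n ^ Fintype.card X := by
  have h1 : (univ.filter (fun f : X → Fin n => f x = f y)).card ≤
      Fintype.card ({z : X // z ≠ y} → Fin n) := by
    rw [← Finset.card_univ]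
    refine Finset.card_le_card_of_injOn (fun f z => f z.1) (fun _ _ => mem_coe.2 (mem_univ _)) ?_
    intro f hf g hg hfg
    rw [mem_coe, mem_filter] at hf hg
    replace hf := hf.2
    replace hg := hg.2
    funext z
    by_cases hz : z = y
    · subst hz
      rw [← hf, ← hg]
      exact congrFun hfg ⟨x, hxy⟩
    · exact congrFun hfg ⟨z, hz⟩
  have h2 : Fintype.card ({z : X // z ≠ y} → Fin n) = n ^ (Fintype.card X - 1) := by
    rw [Fintype.card_fun, Fintype.card_fin]
    congr 1
    rw [Fintype.card_subtype_compl, Fintype.card_subtype_eq]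
  have h3 : 0 < Fintype.card X := Fintype.card_pos_iff.2 ⟨x⟩
  calc n * (univ.filter (fun f : X → Fin n => f x = f y)).card
      ≤ n * n ^ (Fintype.card X - 1) := Nat.mul_le_mul_left _ (h2 ▸ h1)
    _ = n ^ Fintype.card X := by
        rw [← pow_succ', Nat.sub_add_cancel h3]

/-- Functions which are not injective. -/
private theorem cnt_noninj {X : Type} [Fintype X] (n : ℕ) :
    n * (univ.filter (fun f : X → Fin n => ¬ Function.Injective f)).card ≤
      Fintype.card X ^ 2 * n ^ Fintype.card X := by
  have h1 : (univ.filter (fun f : X → Fin n => ¬ Function.Injective f)) ⊆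
      (univ : Finset X).offDiag.biUnion
        (fun p => univ.filter (fun f : X → Fin n => f p.1 = f p.2)) := by
    intro f hf
    rw [mem_filter] at hf
    have h2 := hf.2
    unfold Function.Injective at h2
    push Not at h2
    obtain ⟨x, y, hxy, hne⟩ := h2
    rw [mem_biUnion]
    exact ⟨(x, y), by simp [hne], by simp [hxy]⟩
  calc n * (univ.filter (fun f : X → Fin n => ¬ Function.Injective f)).card
      ≤ n * ((univ : Finset X).offDiag.biUnion
        (fun p => univ.filter (fun f : X → Fin n => f p.1 = f p.2))).card :=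
        Nat.mul_le_mul_left _ (card_le_card h1)
    _ ≤ n * ∑ p ∈ (univ : Finset X).offDiag,
        (univ.filter (fun f : X → Fin n => f p.1 = f p.2)).card :=
        Nat.mul_le_mul_left _ card_biUnion_le
    _ = ∑ p ∈ (univ : Finset X).offDiag,
        n * (univ.filter (fun f : X → Fin n => f p.1 = f p.2)).card := by rw [mul_sum]
    _ ≤ ∑ _p ∈ (univ : Finset X).offDiag, n ^ Fintype.card X := by
        refine sum_le_sum fun p hp => cnt_coinc n p.1 p.2 ?_
        simpa using hp
    _ = (univ : Finset X).offDiag.card * n ^ Fintype.card X := by rw [sum_const, smul_eq_mul]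
    _ ≤ Fintype.card X ^ 2 * n ^ Fintype.card X := by
        refine Nat.mul_le_mul_right _ ?_
        rw [offDiag_card, card_univ, sq]
        exact Nat.sub_le _ _

/-- A configuration as a function on the set of its coordinates. -/
private def cntPhi {J : Type} {l n : ℕ} (c : Cg J l n) :
    (J × Fin 3) ⊕ ((J × Fin 3) × Fin l) → Fin n
  | Sum.inl p => (c p.1 p.2).1
  | Sum.inr p => (c p.1.1 p.1.2).2 p.2

private theorem cntPhi_inj {J : Type} {l n : ℕ} :
    Function.Injective (cntPhi : Cg J l n → _) := by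
  intro c d h
  funext j a
  refine Prod.ext ?_ ?_
  · exact congrFun h (Sum.inl (j, a))
  · funext i
    exact congrFun h (Sum.inr ((j, a), i))

private theorem cnt_card (J : Type) [Fintype J] (l : ℕ) :
    Fintype.card ((J × Fin 3) ⊕ ((J × Fin 3) × Fin l)) = gs J l := by
  simp only [Fintype.card_sum, Fintype.card_prod, Fintype.card_fin, gs]
  ring

private theorem cnt_good {J : Type} {l n : ℕ} (G : SimpleGraph (Fin n)) (c : Cg J l n)
    (h1 : ∀ j a, iso G (c j a).1) (h2 : Function.Injective (cntPhi c)) : Gd G c where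
  iso := h1
  inj := by
    intro j a j' a' h
    have h3 : (Sum.inl (j, a) : (J × Fin 3) ⊕ ((J × Fin 3) × Fin l)) = Sum.inl (j', a') := h2 h
    have h4 := Sum.inl.inj h3
    exact ⟨congrArg Prod.fst h4, congrArg Prod.snd h4⟩
  off := by
    intro j a i j' a' h
    have h3 : (Sum.inr ((j, a), i) : (J × Fin 3) ⊕ ((J × Fin 3) × Fin l)) = Sum.inl (j', a') :=
      h2 h
    exact absurd h3 (by simp)
  ainj := by
    intro j a i i' h
    have h3 : (Sum.inr ((j, a), i) : (J × Fin 3) ⊕ ((J × Fin 3) × Fin l)) =
      Sum.inr ((j, a), i') := h2 h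
    exact congrArg Prod.snd (Sum.inr.inj h3)

private theorem cnt_bad (J : Type) [Fintype J] (l n : ℕ) :
    n * (univ.filter (fun c : Cg J l n => ¬ Function.Injective (cntPhi c))).card ≤
      gs J l ^ 2 * n ^ gs J l := by
  have h1 : (univ.filter (fun c : Cg J l n => ¬ Function.Injective (cntPhi c))).card ≤
      (univ.filter (fun f : (J × Fin 3) ⊕ ((J × Fin 3) × Fin l) → Fin n =>
        ¬ Function.Injective f)).card := by
    refine Finset.card_le_card_of_injOn cntPhi ?_ (cntPhi_inj.injOn)
    intro c hc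
    simpa using hc
  have h2 := cnt_noninj (X := (J × Fin 3) ⊕ ((J × Fin 3) × Fin l)) n
  rw [cnt_card] at h2
  refine le_trans (Nat.mul_le_mul_left n h1) (le_of_eq_of_le ?_ h2)
  congr!

private theorem cnt_all {J : Type} [Fintype J] {l n : ℕ} (I : Finset (Fin n))
    (𝒜 : Finset (J → Fin 3 → Fin l → Fin n)) :
    I.card ^ (3 * Fintype.card J) * 𝒜.card ≤
      (univ.filter (fun c : Cg J l n => (∀ j a, (c j a).1 ∈ I) ∧
        (fun j a => (c j a).2) ∈ 𝒜)).card := by
  have h1 : (Fintype.piFinset fun _ : J => Fintype.piFinset fun _ : Fin 3 => I).card =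
      I.card ^ (3 * Fintype.card J) := by
    rw [Fintype.card_piFinset, Finset.prod_const, Fintype.card_piFinset, Finset.prod_const,
      card_univ, card_univ, Fintype.card_fin, ← pow_mul]
  rw [← h1, ← card_product]
  refine Finset.card_le_card_of_injOn
    (fun p : (J → Fin 3 → Fin n) × (J → Fin 3 → Fin l → Fin n) =>
      (fun j a => (p.1 j a, p.2 j a) : Cg J l n)) ?_ ?_
  · intro p hp
    rw [mem_coe, mem_product, Fintype.mem_piFinset] at hp
    rw [mem_coe, mem_filter]
    refine ⟨mem_univ _, fun j a => ?_, hp.2⟩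
    exact Fintype.mem_piFinset.1 (hp.1 j) a
  · intro p _ p' _ h
    refine Prod.ext ?_ ?_
    · funext j a
      exact congrArg Prod.fst (congrFun (congrFun h j) a)
    · funext j a
      exact congrArg Prod.snd (congrFun (congrFun h j) a)

theorem cnt_new (J : Type) [Fintype J] (l B K₄ : ℕ) : ∃ Γ n₀ : ℕ, ∀ n ≥ n₀,
    ∀ E : Finset (Pr n), ∀ 𝒜 : Finset (J → Fin 3 → Fin l → Fin n), ManyIso K₄ (gr E) →
      n ^ (3 * Fintype.card J * l) ≤ B * 𝒜.card →
      n ^ gs J l ≤ Γ * (univ.filter (fun c : Cg J l n => Gd (gr E) c ∧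
        (fun j a => (c j a).2) ∈ 𝒜)).card := by
  refine ⟨2 * (B * K₄ ^ (3 * Fintype.card J)),
    2 * (B * K₄ ^ (3 * Fintype.card J)) * gs J l ^ 2 + 1, ?_⟩
  intro n hn E 𝒜 hI h𝒜
  set q := Fintype.card J with hq
  set I : Finset (Fin n) := univ.filter (fun v => iso (gr E) v) with hIdef
  have hI1 : n ≤ K₄ * I.card := by
    unfold ManyIso at hI
    rw [Nat.card_eq_fintype_card, Fintype.card_fin] at hI
    have h2 : {v | iso (gr E) v}.ncard = I.card := by
      rw [Set.ncard_eq_toFinset_card']
      congr 1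
      ext v
      simp [hIdef]
    rwa [h2] at hI
  set G := (univ.filter (fun c : Cg J l n => Gd (gr E) c ∧
        (fun j a => (c j a).2) ∈ 𝒜)) with hG
  set Bd := (univ.filter (fun c : Cg J l n => ¬ Function.Injective (cntPhi c))) with hBd
  have hbad : n * Bd.card ≤ gs J l ^ 2 * n ^ gs J l := cnt_bad J l n
  have hsub : (univ.filter (fun c : Cg J l n => (∀ j a, (c j a).1 ∈ I) ∧
        (fun j a => (c j a).2) ∈ 𝒜)) ⊆ G ∪ Bd := by
    intro c hc
    rw [mem_filter] at hc
    rw [mem_union]
    by_cases hinj : Function.Injective (cntPhi c)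
    · left
      rw [hG, mem_filter]
      refine ⟨mem_univ _, cnt_good _ _ (fun j a => ?_) hinj, hc.2.2⟩
      have := hc.2.1 j a
      rw [hIdef, mem_filter] at this
      exact this.2
    · right
      rw [hBd, mem_filter]
      exact ⟨mem_univ _, hinj⟩
  have hcount : I.card ^ (3 * q) * 𝒜.card ≤ G.card + Bd.card :=
    (cnt_all I 𝒜).trans ((card_le_card hsub).trans (card_union_le _ _))
  have hpow : n ^ gs J l ≤ B * K₄ ^ (3 * q) * (G.card + Bd.card) := by
    calc n ^ gs J l = n ^ (3 * q) * n ^ (3 * q * l) := by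
          rw [← pow_add]
          congr 1
          rw [gs]
          ring
      _ ≤ (K₄ * I.card) ^ (3 * q) * (B * 𝒜.card) :=
          Nat.mul_le_mul (Nat.pow_le_pow_left hI1 _) h𝒜
      _ = B * K₄ ^ (3 * q) * (I.card ^ (3 * q) * 𝒜.card) := by
          rw [mul_pow]
          ring
      _ ≤ B * K₄ ^ (3 * q) * (G.card + Bd.card) := Nat.mul_le_mul_left _ hcount
  set K := B * K₄ ^ (3 * q) with hK
  have hnpos : 0 < n := by omega
  have h3 : n * n ^ gs J l ≤ K * n * G.card + K * (gs J l ^ 2 * n ^ gs J l) := by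
    calc n * n ^ gs J l ≤ n * (K * (G.card + Bd.card)) := Nat.mul_le_mul_left _ hpow
      _ = K * n * G.card + K * (n * Bd.card) := by ring
      _ ≤ K * n * G.card + K * (gs J l ^ 2 * n ^ gs J l) :=
          Nat.add_le_add_left (Nat.mul_le_mul_left _ hbad) _
  have h4 : 2 * (K * (gs J l ^ 2 * n ^ gs J l)) ≤ n * n ^ gs J l := by
    calc 2 * (K * (gs J l ^ 2 * n ^ gs J l)) = (2 * K * gs J l ^ 2) * n ^ gs J l := by ring
      _ ≤ n * n ^ gs J l := Nat.mul_le_mul_right _ (by omega)
  have h5 : n * n ^ gs J l ≤ n * (2 * K * G.card) := by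
    have : n * (2 * K * G.card) = 2 * (K * n * G.card) := by ring
    omega
  exact Nat.le_of_mul_le_mul_left h5 hnpos

end Pool.Agent.Work.MP_73831e_pr.F
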