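import Pool.Agent.Work.MP_73831e_pr.F.K.One
import Pool.Agent.Work.MP_73831e_pr.F.K.Cnt

/-!
MODULE K/CluK (S-M).  If the colourings form at most `R` clusters, a positive fraction of the
configurations of `R` gadgets kills.

Let `C : Fin R → Fin (l+1) → Finset` be the families.  Let `𝒜` be the set of the attachment arrays
`A : Fin R → Fin 3 → Fin l → Fin n` with `A r a i ∈ C r i.castSucc`; `|𝒜| = ∏_{r,a,i} |C r i.castSucc|`
and `n ^ (3 R l) ≤ K ^ (3 R l) |𝒜|`.  Apply `cnt_new` with `J = Fin R`, `B = K ^ (3 R l)`.  Every good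
`c` with attachments in `𝒜` kills: a proper colouring `f` of `gr (E ∪ gadN c)` is proper for `gr E`, so
`Cst (C r) f` for some `r`, with a permutation `π`; now `kill_one` with `j = r`,
`p i = π i.castSucc.castSucc`.
-/

open Finset
open scoped Classical Nat

namespace Pool.Agent.Work.MP_73831e_pr.F

theorem clu_kf (l R K K₄ : ℕ) : ∃ Γ n₀ : ℕ, ∀ n ≥ n₀, ∀ E : Finset (Pr n),
    Clu (l + 1) R K E → ManyIso K₄ (gr E) → KF (Fin R) l Γ E := by
  obtain ⟨Γ, n₀, h⟩ := cnt_new (Fin R) l (K ^ (3 * R * l)) K₄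
  refine ⟨Γ, n₀, fun n hn E hclu hiso => ?_⟩
  obtain ⟨C, hbig, hC⟩ := hclu
  let 𝒜 : Finset (Fin R → Fin 3 → Fin l → Fin n) :=
    Fintype.piFinset (fun r => Fintype.piFinset (fun _ => Fintype.piFinset (fun i => C r i.castSucc)))
  have hcard : n ^ (3 * Fintype.card (Fin R) * l) ≤ K ^ (3 * R * l) * 𝒜.card := by
    have h1 : 𝒜.card = ∏ r : Fin R, ∏ _a : Fin 3, ∏ i : Fin l, (C r i.castSucc).card := by
      change (Fintype.piFinset _).card = _
      rw [Fintype.card_piFinset]
      refine prod_congr rfl fun r _ => ?_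
      rw [Fintype.card_piFinset]
      refine prod_congr rfl fun a _ => ?_
      rw [Fintype.card_piFinset]
    have h2 : ∀ N : ℕ, ∏ _r : Fin R, ∏ _a : Fin 3, ∏ _i : Fin l, N = N ^ (3 * R * l) := by
      intro N
      simp only [prod_const, card_univ, Fintype.card_fin, ← pow_mul]
      congr 1
      ring
    rw [Fintype.card_fin, h1, ← h2 n, ← h2 K, ← prod_mul_distrib]
    refine prod_le_prod' fun r _ => ?_
    rw [← prod_mul_distrib]
    refine prod_le_prod' fun a _ => ?_
    rw [← prod_mul_distrib]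
    exact prod_le_prod' fun i _ => hbig r i.castSucc
  refine (h n hn E 𝒜 hiso hcard).trans (Nat.mul_le_mul_left _ (card_le_card ?_))
  intro c hc
  rw [mem_filter] at hc
  obtain ⟨-, hgd, hA⟩ := hc
  unfold Kil
  simp only [mem_filter, mem_univ, true_and]
  refine ⟨hgd, ?_⟩
  rintro ⟨f, hf⟩
  obtain ⟨r, π, hπ⟩ := hC f (hf.anti (gr_mono subset_union_left))
  refine kill_one hgd hf r (fun i => π i.castSucc.castSucc) ?_ ?_
  · intro i i' hii
    have h3 := π.injective hii
    exact Fin.castSucc_injective _ (Fin.castSucc_injective _ h3)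
  · intro a i
    refine hπ i.castSucc _ ?_
    have h4 := (Fintype.mem_piFinset.1 hA) r
    have h5 := (Fintype.mem_piFinset.1 h4) a
    exact (Fintype.mem_piFinset.1 h5) i

end Pool.Agent.Work.MP_73831e_pr.F
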