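import Pool.Agent.Work.MP_73831e_pr.F.P.Gad

/-!
MODULE K/One (S).  When a gadget kills a colouring.

Suppose `f` is a proper colouring of `gr (E ∪ gadN c)` and the attachments of the three new vertices
of gadget `j` have the colours `p i` (`i : Fin l`), `p` injective.  The colours
`f (c j a).1`, `a = 0, 1, 2`, are pairwise distinct (the new vertices of gadget `j` are pairwise
adjacent, `gad_nb` or directly from the definition of `gadN` and `Gd.inj`) and different from all
`p i` (`(c j a).1` is adjacent to `(c j a).2 i`, `Gd.off`).  So `Fin 3 ⊕ Fin l` injects into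
`Fin (l + 1 + 1)`: contradiction.
-/

open Finset
open scoped Classical Nat

namespace Pool.Agent.Work.MP_73831e_pr.F

private theorem adj_tri {J : Type} [Fintype J] {l n : ℕ} {E : Finset (Pr n)} {c : Cg J l n}
    (hc : Gd (gr E) c) (j : J) {a b : Fin 3} (hab : a ≠ b) :
    (gr (E ∪ gadN c)).Adj (c j a).1 (c j b).1 := by
  have hne : (c j a).1 ≠ (c j b).1 := fun h => hab (hc.inj j a j b h).2
  rw [gr_adj']
  refine ⟨⟨s((c j a).1, (c j b).1), fun h => hne (Sym2.mk_isDiag_iff.mp h)⟩,
    mem_union_right _ ?_, rfl⟩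
  unfold gadN
  simp only [mem_filter, mem_univ, true_and]
  exact Or.inl ⟨j, a, b, rfl⟩

private theorem adj_att {J : Type} [Fintype J] {l n : ℕ} {E : Finset (Pr n)} {c : Cg J l n}
    (hc : Gd (gr E) c) (j : J) (a : Fin 3) (i : Fin l) :
    (gr (E ∪ gadN c)).Adj (c j a).1 ((c j a).2 i) := by
  have hne : (c j a).1 ≠ (c j a).2 i := fun h => hc.off j a i j a h.symm
  rw [gr_adj']
  refine ⟨⟨s((c j a).1, (c j a).2 i), fun h => hne (Sym2.mk_isDiag_iff.mp h)⟩,
    mem_union_right _ ?_, rfl⟩
  unfold gadN
  simp only [mem_filter, mem_univ, true_and]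
  exact Or.inr ⟨j, a, i, rfl⟩

theorem kill_one {J : Type} [Fintype J] {l n : ℕ} {E : Finset (Pr n)} {c : Cg J l n}
    (hc : Gd (gr E) c) {f : Fin n → Fin (l + 1 + 1)} (hf : PC (l + 1 + 1) (gr (E ∪ gadN c)) f)
    (j : J) (p : Fin l → Fin (l + 1 + 1)) (hp : Function.Injective p)
    (h : ∀ a i, f ((c j a).2 i) = p i) : False := by
  have hinj : Function.Injective (Sum.elim (fun a : Fin 3 => f (c j a).1) p) := by
    rintro (a | i) (b | i') hab
    · by_contra hne
      have hne' : a ≠ b := fun h => hne (by rw [h])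
      exact hf _ _ (adj_tri hc j hne') hab
    · exact absurd (hab.trans (h a i').symm) (hf _ _ (adj_att hc j a i'))
    · exact absurd (hab.symm.trans (h b i).symm) (hf _ _ (adj_att hc j b i))
    · exact congrArg Sum.inr (hp hab)
  have hcard := Fintype.card_le_of_injective _ hinj
  rw [Fintype.card_sum, Fintype.card_fin, Fintype.card_fin, Fintype.card_fin] at hcard
  omega

end Pool.Agent.Work.MP_73831e_pr.F
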