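import Pool.Agent.Work.MP_73831e_pr.F.Defs

/-!
MODULE K/QRE (M).  Graphs with a positive fraction of quasi-rainbow `m`-tuples have at least
`n / K'` edges (`m ≥ 2`).

Take `K' = 4 K + 2 m B + 1` (say) and `n` large.  Suppose `K' |E| < n`; let `N₀` be the set of the
vertices which are not isolated, `|N₀| ≤ 2 |E|`.  Claim: a tuple `v` all of whose entries are isolated
is not quasi-rainbow.  Let `C` be a big family.  `C 0` has at least
`n / K - 2 |E| - m ≥ 2` isolated vertices outside the tuple; choose two, `p ≠ q`.  Let `f` be a proper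
colouring and let `g` be `f` changed to `g (v i) = 0` for all `i`, `g p = 0`, `g q = 1`.  It is proper
(only isolated vertices changed), not injective on the tuple (`g (v 0) = g (v 1)`), and not
`Cst C`.  So every quasi-rainbow tuple has an entry in `N₀`, their number is at most
`m |N₀| n ^ (m-1) ≤ 2 m |E| n ^ (m-1)`, so `n ^ m ≤ 2 m B |E| n ^ (m-1)`, `n ≤ 2 m B |E|`:
contradiction.
-/

open Finset
open scoped Classical Nat

namespace Pool.Agent.Work.MP_73831e_pr.F

private theorem nonIso_card {n : ℕ} (E : Finset (Pr n)) :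
    (univ.filter (fun v : Fin n => ¬ iso (gr E) v)).card ≤ 2 * E.card := by
  have h1 : univ.filter (fun v : Fin n => ¬ iso (gr E) v) ⊆ E.biUnion (fun e => e.1.toFinset) := by
    intro v hv
    rw [mem_filter] at hv
    have h2 := hv.2
    unfold iso at h2
    push Not at h2
    obtain ⟨u, hu⟩ := h2
    obtain ⟨e, he, hes⟩ := gr_adj'.1 hu
    rw [mem_biUnion]
    refine ⟨e, he, ?_⟩
    rw [hes, Sym2.mem_toFinset]
    exact Sym2.mem_mk_left v u
  refine (card_le_card h1).trans (card_biUnion_le.trans ?_)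
  rw [mul_comm, ← smul_eq_mul, ← sum_const]
  refine sum_le_sum fun e _ => ?_
  exact (Sym2.card_toFinset_of_not_isDiag e.1 e.2).le

private theorem slice_card {n m : ℕ} (i : Fin m) (N : Finset (Fin n)) :
    (univ.filter (fun v : Fin m → Fin n => v i ∈ N)).card = N.card * n ^ (m - 1) := by
  have h1 : univ.filter (fun v : Fin m → Fin n => v i ∈ N) =
      Fintype.piFinset (fun j : Fin m => if j = i then N else univ) := by
    ext v
    rw [mem_filter, Fintype.mem_piFinset]
    constructor
    · rintro ⟨_, h⟩ j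
      by_cases hj : j = i
      · rw [if_pos hj, hj]; exact h
      · rw [if_neg hj]; exact mem_univ _
    · intro h
      refine ⟨mem_univ _, ?_⟩
      have := h i
      rwa [if_pos rfl] at this
  rw [h1, Fintype.card_piFinset, ← Finset.mul_prod_erase univ _ (mem_univ i), if_pos rfl]
  congr 1
  rw [prod_congr rfl (g := fun _ => n) (fun j hj => by
    rw [if_neg (ne_of_mem_erase hj), card_univ, Fintype.card_fin]), prod_const,
    card_erase_of_mem (mem_univ i), card_univ, Fintype.card_fin]

private theorem not_qr {n m K : ℕ} (hm : 2 ≤ m) (E : Finset (Pr n)) (hE : Alive (m + 1) (gr E))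
    (hn : 2 * K * (m + 1) < n) (hK : 4 * K * E.card ≤ n) (v : Fin m → Fin n)
    (hv : ∀ i, iso (gr E) (v i)) : ¬ QR m K E v := by
  rintro ⟨C, hC, hf⟩
  obtain ⟨f, hfp⟩ := hE
  set N₀ := univ.filter (fun v : Fin n => ¬ iso (gr E) v) with hN₀
  set i0 : Fin m := ⟨0, by omega⟩
  set i1 : Fin m := ⟨1, by omega⟩
  have hcard : 1 < (C i0 \ (N₀ ∪ univ.image v)).card := by
    have h1 := hC i0
    have h2 : (C i0).card ≤ (C i0 \ (N₀ ∪ univ.image v)).card + (N₀ ∪ univ.image v).card := by
      have := Finset.le_card_sdiff (N₀ ∪ univ.image v) (C i0)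
      omega
    have h3 : (N₀ ∪ univ.image v).card ≤ 2 * E.card + m := by
      refine (card_union_le _ _).trans (Nat.add_le_add (nonIso_card E) ?_)
      refine card_image_le.trans ?_
      rw [card_univ, Fintype.card_fin]
    by_contra h4
    have h5 : (C i0).card ≤ 2 * E.card + m + 1 := by omega
    have h6 : n ≤ K * (2 * E.card + m + 1) := h1.trans (Nat.mul_le_mul_left K h5)
    nlinarith
  obtain ⟨p, hp, q, hq, hpq⟩ := one_lt_card.1 hcard
  rw [mem_sdiff, mem_union, not_or, hN₀, mem_filter, not_and, not_not, mem_image] at hp hq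
  have hpi := hp.2.1 (mem_univ p)
  have hqi := hq.2.1 (mem_univ q)
  set g : Fin n → Fin (m + 1) := fun x => if x = q then 1 else
    if x = p ∨ ∃ i, v i = x then 0 else f x with hg
  have hgf : ∀ x, ¬ iso (gr E) x → g x = f x := by
    intro x hx
    have h1 : x ≠ q := fun h => hx (h ▸ hqi)
    have h2 : ¬ (x = p ∨ ∃ i, v i = x) := by
      rintro (h | ⟨i, h⟩)
      · exact hx (h ▸ hpi)
      · exact hx (h ▸ hv i)
    rw [hg]
    simp only [if_neg h1, if_neg h2]
  have hgp : PC (m + 1) (gr E) g := by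
    intro a b hab
    have ha : ¬ iso (gr E) a := fun h => h b hab
    have hb : ¬ iso (gr E) b := fun h => h a hab.symm
    rw [hgf a ha, hgf b hb]
    exact hfp a b hab
  have hgv : ∀ i, g (v i) = 0 := by
    intro i
    have h1 : v i ≠ q := fun h => hq.2.2 ⟨i, mem_univ i, h⟩
    rw [hg]
    simp only [if_neg h1]
    rw [if_pos (Or.inr ⟨i, rfl⟩)]
  rcases hf g hgp with h | ⟨π, h⟩
  · have h1 : i0 = i1 := h (by simp only [hgv])
    have h2 := congrArg Fin.val h1
    simp [i0, i1] at h2
  · have h1 := h i0 p hp.1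
    have h2 := h i0 q hq.1
    have h3 : g p = 0 := by
      rw [hg]
      simp only [if_neg hpq]
      rw [if_pos (Or.inl trivial)]
    have h4 : g q = 1 := by
      rw [hg]
      simp
    rw [h3] at h1
    rw [h4, ← h1] at h2
    have h5 := congrArg Fin.val h2
    rw [Fin.val_one'] at h5
    simp only [Fin.val_zero] at h5
    rw [Nat.mod_eq_of_lt (by omega)] at h5
    omega

theorem mq_early (m K B : ℕ) (hm : 2 ≤ m) : ∃ K' n₀ : ℕ, ∀ n ≥ n₀, ∀ E : Finset (Pr n),
    MQ m K B E → Alive (m + 1) (gr E) → n ≤ K' * E.card := by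
  refine ⟨4 * K + 2 * m * B + 1, 2 * K * (m + 1) + 1, fun n hn E hE hA => ?_⟩
  by_contra hlt
  push Not at hlt
  have h0 : (4 * K + 2 * m * B + 1) * E.card = 4 * K * E.card + 2 * m * B * E.card + E.card := by
    ring
  have h1 : 4 * K * E.card ≤ n := by omega
  have h2 : 2 * m * B * E.card < n := by omega
  set N₀ := univ.filter (fun v : Fin n => ¬ iso (gr E) v) with hN₀
  have h3 : univ.filter (fun v : Fin m → Fin n => QR m K E v) ⊆
      univ.biUnion (fun i : Fin m => univ.filter (fun v : Fin m → Fin n => v i ∈ N₀)) := by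
    intro v hv
    rw [mem_filter] at hv
    rw [mem_biUnion]
    by_contra h4
    push Not at h4
    refine not_qr hm E hA (by omega) h1 v (fun i => ?_) hv.2
    by_contra h5
    exact h4 i (mem_univ i) (mem_filter.2 ⟨mem_univ _, mem_filter.2 ⟨mem_univ _, h5⟩⟩)
  have h4 : (univ.filter (fun v : Fin m → Fin n => QR m K E v)).card ≤
      m * (2 * E.card * n ^ (m - 1)) := by
    refine (card_le_card h3).trans (card_biUnion_le.trans ?_)
    have h5 : ∀ i ∈ (univ : Finset (Fin m)),
        (univ.filter (fun v : Fin m → Fin n => v i ∈ N₀)).card ≤ 2 * E.card * n ^ (m - 1) := by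
      intro i _
      rw [slice_card]
      exact Nat.mul_le_mul_right _ (nonIso_card E)
    refine (sum_le_card_nsmul _ _ _ h5).trans ?_
    rw [card_univ, Fintype.card_fin, smul_eq_mul]
  have h5 : n ^ m ≤ B * (m * (2 * E.card * n ^ (m - 1))) := hE.trans (Nat.mul_le_mul_left B h4)
  obtain ⟨l, rfl⟩ : ∃ l, m = l + 1 := ⟨m - 1, by omega⟩
  rw [Nat.add_sub_cancel] at h5
  have hpos : 0 < n ^ l := pow_pos (by omega) l
  have h6 : n * n ^ l ≤ (2 * (l + 1) * B * E.card) * n ^ l := by
    calc n * n ^ l = n ^ (l + 1) := by ring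
      _ ≤ B * ((l + 1) * (2 * E.card * n ^ l)) := h5
      _ = (2 * (l + 1) * B * E.card) * n ^ l := by ring
  have h7 := Nat.le_of_mul_le_mul_right h6 hpos
  omega

end Pool.Agent.Work.MP_73831e_pr.F
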