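import Pool.Agent.Work.MP_73831e_pr.F.K.One
import Pool.Agent.Work.MP_73831e_pr.F.K.Cnt
import Pool.Agent.Work.MP_73831e_pr.F.K.Blow
import Pool.Agent.Work.MP_73831e_pr.F.K.Box

/-!
MODULE K/QRK (M-L).  If a positive fraction of the `m`-tuples (`m = l + 1`) is quasi-rainbow, then a
positive fraction of the gadget configurations kills.

Let `m = l + 1`, `Λ = Fin m × Fin 3`, `J = Fin m ⊕ (Fin m → Λ)`.  Let `𝓑` be the set of boxes
`V : Fin m → Λ → Fin n` all of whose transversals `V_α = (V i (α i))_i` are quasi-rainbow; by `blow`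
`n ^ (m |Λ|) ≤ B' |𝓑|`.  For `V ∈ 𝓑` and `α : Fin m → Λ` choose a big family `C^{V,α}` which witnesses
that `V_α` is quasi-rainbow.  Let `𝒜` be the set of the attachment arrays `A : J → Fin 3 → Fin l → Fin n`
for which there is `V ∈ 𝓑` with
 (1) `A (inl i) a i' = V (i.succAbove i') (i, a)` for all `i : Fin m`, `a`, `i' : Fin l`, and
 (2) `A (inr α) a i' ∈ C^{V,α} i'.castSucc` for all `α, a, i'`.
Count: the restriction map `V ↦ V (i.succAbove i') (i, a)` forgets exactly the `3 m` coordinates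
`V i (i, a)`, so it takes at least `|𝓑| / n ^ (3 m)` values; `m |Λ| - 3 m = 3 m (m - 1) = 3 m l`.  For
each value choose one `V ∈ 𝓑`; the arrays on the `inr` part allowed by (2) for this `V` number at
least `(n / K) ^ (3 l |Λ|^m)`.  So `n ^ (3 |J| l) ≤ B' K ^ (3 l |Λ|^m) |𝒜|`.  Apply `cnt_new`.
(Suggestion: prove `n ^ (3 m) * n ^ (3 |J| l) ≤ ...` by an injection of
`{(V, D) | V ∈ 𝓑, D ∈ ∏ C^{V', α}}` into `𝒜 × (Fin m → Fin 3 → Fin n)`, where `V'` is the chosen
representative of the class of `V`.)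
Killing: let `c` be good with attachments in `𝒜`, witnessed by `V`, and let `f` be a proper colouring
of `gr (E ∪ gadN c)`, hence of `gr E`.  If `Cst C^{V,α} f` for some `α` (permutation `π`), use
`kill_one` with `j = inr α`, `p i' = π i'.castSucc.castSucc`.  Otherwise `f` is injective on all
transversals `V_α`, so by `box_mono` there is `i` such that `f ∘ V j` is constant for all `j ≠ i`;
use `kill_one` with `j = inl i`, `p i' = f (V (i.succAbove i') (i, 0))` (injective, since
`i.succAbove` is injective and `f` is injective on a transversal through these points).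
-/

open Finset
open scoped Classical Nat

namespace Pool.Agent.Work.MP_73831e_pr.F

private theorem big_pi {n K l : ℕ} {X : Type} [Fintype X]
    (C : X → Fin 3 → Fin l → Finset (Fin n)) (h : ∀ x a i, n ≤ K * (C x a i).card) :
    n ^ (Fintype.card X * 3 * l) ≤ K ^ (Fintype.card X * 3 * l) *
      (Fintype.piFinset fun x => Fintype.piFinset fun a => Fintype.piFinset fun i => C x a i).card := by
  have e1 : n ^ (Fintype.card X * 3 * l) = ∏ _x : X, ∏ _a : Fin 3, ∏ _i : Fin l, n := by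
    simp only [Finset.prod_const, Finset.card_univ, Fintype.card_fin]
    rw [← pow_mul, ← pow_mul]
    congr 1
    ring
  have e2 : K ^ (Fintype.card X * 3 * l) = ∏ _x : X, ∏ _a : Fin 3, ∏ _i : Fin l, K := by
    simp only [Finset.prod_const, Finset.card_univ, Fintype.card_fin]
    rw [← pow_mul, ← pow_mul]
    congr 1
    ring
  have e3 : (Fintype.piFinset fun x => Fintype.piFinset fun a =>
      Fintype.piFinset fun i => C x a i).card = ∏ x : X, ∏ a : Fin 3, ∏ i : Fin l, (C x a i).card := by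
    simp only [Fintype.card_piFinset]
  rw [e1, e2, e3]
  simp only [← Finset.prod_mul_distrib]
  exact Finset.prod_le_prod' fun x _ => Finset.prod_le_prod' fun a _ =>
    Finset.prod_le_prod' fun i _ => h x a i

/-- the type of the columns (a definition, so that all decidability instances are classical) -/
private def Lam (l : ℕ) : Type := Fin (l + 1) × Fin 3

private noncomputable instance (l : ℕ) : Fintype (Lam l) :=
  inferInstanceAs (Fintype (Fin (l + 1) × Fin 3))

private instance (l : ℕ) : Nonempty (Lam l) := ⟨((0 : Fin (l + 1)), (0 : Fin 3))⟩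

private theorem card_Lam (l : ℕ) : Fintype.card (Lam l) = (l + 1) * 3 := by
  show Fintype.card (Fin (l + 1) × Fin 3) = _
  rw [Fintype.card_prod, Fintype.card_fin, Fintype.card_fin]

private def lam {l : ℕ} (i : Fin (l + 1)) (a : Fin 3) : Lam l := (i, a)

private def XX (l : ℕ) : Type := Fin (l + 1) → Lam l

private noncomputable instance (l : ℕ) : Fintype (XX l) :=
  inferInstanceAs (Fintype (Fin (l + 1) → Lam l))

private def JJ (l : ℕ) : Type := Fin (l + 1) ⊕ XX l

private noncomputable instance (l : ℕ) : Fintype (JJ l) :=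
  inferInstanceAs (Fintype (Fin (l + 1) ⊕ XX l))

private theorem card_JJ (l : ℕ) : Fintype.card (JJ l) = (l + 1) + Fintype.card (XX l) := by
  show Fintype.card (Fin (l + 1) ⊕ XX l) = _
  rw [Fintype.card_sum, Fintype.card_fin]

private def jl {l : ℕ} (i : Fin (l + 1)) : JJ l := Sum.inl i

private def jr {l : ℕ} (α : XX l) : JJ l := Sum.inr α

private def je {l : ℕ} {Y : Type} (r : Fin (l + 1) → Y) (D : XX l → Y) : JJ l → Y := Sum.elim r D

private theorem je_l {l : ℕ} {Y : Type} (r : Fin (l + 1) → Y) (D : XX l → Y) (i : Fin (l + 1)) :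
    je r D (jl i) = r i := rfl

private theorem je_r {l : ℕ} {Y : Type} (r : Fin (l + 1) → Y) (D : XX l → Y) (α : XX l) :
    je r D (jr α) = D α := rfl

/-- the restriction of a box to the off-diagonal coordinates -/
private def Rr {l n : ℕ} (V : Fin (l + 1) → Lam l → Fin n) :
    Fin (l + 1) → Fin 3 → Fin l → Fin n := fun i a i' => V (i.succAbove i') (lam i a)

private def Dg {l n : ℕ} (V : Fin (l + 1) → Lam l → Fin n) :
    Fin (l + 1) → Fin 3 → Fin n := fun i a => V i (lam i a)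

private theorem rr_dg {l n : ℕ} {V W : Fin (l + 1) → Lam l → Fin n}
    (h1 : Rr V = Rr W) (h2 : Dg V = Dg W) : V = W := by
  funext j x
  obtain ⟨i, a⟩ := x
  by_cases hji : j = i
  · subst hji
    exact congrFun (congrFun h2 j) a
  · obtain ⟨i', rfl⟩ := Fin.exists_succAbove_eq hji
    exact congrFun (congrFun (congrFun h1 i) a) i'

private theorem card_rr {l n : ℕ} (𝓑 : Finset (Fin (l + 1) → Lam l → Fin n)) :
    𝓑.card ≤ (𝓑.image Rr).card * n ^ (3 * (l + 1)) := by
  have h1 : 𝓑.card ≤ ((𝓑.image Rr) ×ˢ (univ : Finset (Fin (l + 1) → Fin 3 → Fin n))).card := by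
    refine Finset.card_le_card_of_injOn (fun V => (Rr V, Dg V)) ?_ ?_
    · intro V hV
      rw [Finset.mem_coe, Finset.mem_product]
      exact ⟨Finset.mem_image_of_mem _ hV, Finset.mem_univ _⟩
    · intro V _ W _ h
      simp only [Prod.mk.injEq] at h
      exact rr_dg h.1 h.2
  rw [Finset.card_product] at h1
  refine h1.trans (le_of_eq ?_)
  congr 1
  rw [Finset.card_univ, Fintype.card_fun, Fintype.card_fun, Fintype.card_fin, Fintype.card_fin,
    Fintype.card_fin, ← pow_mul]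

/-- the attachment arrays -/
private noncomputable def Arrs {l n : ℕ} (𝓑 : Finset (Fin (l + 1) → Lam l → Fin n))
    (CC : (Fin (l + 1) → Lam l → Fin n) → XX l → Fin (l + 1) → Finset (Fin n)) :
    Finset (JJ l → Fin 3 → Fin l → Fin n) :=
  univ.filter (fun A => ∃ V ∈ 𝓑, (∀ i a i', A (jl i) a i' = Rr V i a i') ∧
    ∀ (α : XX l) a i', A (jr α) a i' ∈ CC V α (Fin.castSucc i'))

private theorem arrs_card {l n K : ℕ} (hn1 : 1 ≤ n)
    (𝓑 : Finset (Fin (l + 1) → Lam l → Fin n))
    (CC : (Fin (l + 1) → Lam l → Fin n) → XX l → Fin (l + 1) → Finset (Fin n))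
    (hCC : ∀ V ∈ 𝓑, ∀ α, Big K (CC V α)) :
    (𝓑.image Rr).card * n ^ (Fintype.card (XX l) * 3 * l) ≤
      K ^ (Fintype.card (XX l) * 3 * l) * (Arrs 𝓑 CC).card := by
  -- representatives
  have hrep : ∀ r : Fin (l + 1) → Fin 3 → Fin l → Fin n,
      ∃ V, r ∈ 𝓑.image Rr → V ∈ 𝓑 ∧ Rr V = r := by
    intro r
    by_cases hr : r ∈ 𝓑.image Rr
    · obtain ⟨V, hV, hVr⟩ := Finset.mem_image.1 hr
      exact ⟨V, fun _ => ⟨hV, hVr⟩⟩
    · exact ⟨fun _ _ => ⟨0, hn1⟩, fun h => absurd h hr⟩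
  choose rep hrep' using hrep
  obtain ⟨TT, hTTd⟩ : ∃ TT : (Fin (l + 1) → Fin 3 → Fin l → Fin n) →
      Finset (XX l → Fin 3 → Fin l → Fin n), ∀ r, TT r =
      Fintype.piFinset fun α => Fintype.piFinset fun _a => Fintype.piFinset fun i' =>
        CC (rep r) α (Fin.castSucc i') := ⟨_, fun _ => rfl⟩
  have hTT : ∀ r ∈ 𝓑.image Rr, n ^ (Fintype.card (XX l) * 3 * l) ≤
      K ^ (Fintype.card (XX l) * 3 * l) * (TT r).card := by
    intro r hr
    rw [hTTd]
    exact big_pi (fun α _ i' => CC (rep r) α (Fin.castSucc i')) fun α _ i' =>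
      hCC (rep r) (hrep' r hr).1 α _
  have h𝒜card : ∑ r ∈ 𝓑.image Rr, (TT r).card ≤ (Arrs 𝓑 CC).card := by
    rw [← Finset.card_sigma]
    refine Finset.card_le_card_of_injOn (fun p => je p.1 p.2) ?_ ?_
    · rintro ⟨r, D⟩ hp
      rw [Finset.mem_coe, Finset.mem_sigma] at hp
      obtain ⟨hr, hD⟩ := hp
      simp only at hr hD
      rw [hTTd] at hD
      rw [Finset.mem_coe, Arrs, Finset.mem_filter]
      refine ⟨Finset.mem_univ _, rep r, (hrep' r hr).1, ?_, ?_⟩
      · intro i a i'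
        show je r D (jl i) a i' = Rr (rep r) i a i'
        rw [je_l, (hrep' r hr).2]
      · intro α a i'
        show je r D (jr α) a i' ∈ _
        rw [je_r]
        exact Fintype.mem_piFinset.1 (Fintype.mem_piFinset.1 (Fintype.mem_piFinset.1 hD α) a) i'
    · rintro ⟨r, D⟩ _ ⟨r', D'⟩ _ h
      simp only at h
      have e1 : r = r' := by
        funext i
        exact congrFun h (jl i)
      have e2 : D = D' := by
        funext α
        exact congrFun h (jr α)
      rw [e1, e2]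
  calc (𝓑.image Rr).card * n ^ (Fintype.card (XX l) * 3 * l)
      = ∑ _r ∈ 𝓑.image Rr, n ^ (Fintype.card (XX l) * 3 * l) := by
          rw [Finset.sum_const, smul_eq_mul]
    _ ≤ ∑ r ∈ 𝓑.image Rr, K ^ (Fintype.card (XX l) * 3 * l) * (TT r).card :=
          Finset.sum_le_sum hTT
    _ = K ^ (Fintype.card (XX l) * 3 * l) * ∑ r ∈ 𝓑.image Rr, (TT r).card := by
          rw [← Finset.mul_sum]
    _ ≤ _ := Nat.mul_le_mul_left _ h𝒜card

private theorem count_all {l n K B' : ℕ} (hn1 : 1 ≤ n)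
    (𝓑 : Finset (Fin (l + 1) → Lam l → Fin n))
    (CC : (Fin (l + 1) → Lam l → Fin n) → XX l → Fin (l + 1) → Finset (Fin n))
    (hCC : ∀ V ∈ 𝓑, ∀ α, Big K (CC V α))
    (h1 : n ^ ((l + 1) * Fintype.card (Lam l)) ≤ B' * 𝓑.card) :
    n ^ (3 * Fintype.card (JJ l) * l) ≤
      B' * K ^ (Fintype.card (XX l) * 3 * l) * (Arrs 𝓑 CC).card := by
  have e1 : n ^ (3 * (l + 1) * l) ≤ B' * (𝓑.image Rr).card := by
    have h2 : n ^ (3 * (l + 1) * l) * n ^ (3 * (l + 1)) ≤
        B' * (𝓑.image Rr).card * n ^ (3 * (l + 1)) := by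
      calc n ^ (3 * (l + 1) * l) * n ^ (3 * (l + 1)) =
          n ^ ((l + 1) * Fintype.card (Lam l)) := by
            rw [← pow_add, card_Lam]
            congr 1
            ring
        _ ≤ B' * 𝓑.card := h1
        _ ≤ B' * ((𝓑.image Rr).card * n ^ (3 * (l + 1))) := Nat.mul_le_mul_left _ (card_rr 𝓑)
        _ = _ := by ring
    exact Nat.le_of_mul_le_mul_right h2 (Nat.pow_pos (by omega))
  calc n ^ (3 * Fintype.card (JJ l) * l)
      = n ^ (3 * (l + 1) * l) * n ^ (Fintype.card (XX l) * 3 * l) := by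
        rw [card_JJ, ← pow_add]
        congr 1
        ring
    _ ≤ B' * (𝓑.image Rr).card * n ^ (Fintype.card (XX l) * 3 * l) := Nat.mul_le_mul_right _ e1
    _ = B' * ((𝓑.image Rr).card * n ^ (Fintype.card (XX l) * 3 * l)) := by ring
    _ ≤ B' * (K ^ (Fintype.card (XX l) * 3 * l) * (Arrs 𝓑 CC).card) :=
        Nat.mul_le_mul_left _ (arrs_card hn1 𝓑 CC hCC)
    _ = _ := by ring

private theorem kills {l n K : ℕ} {E : Finset (Pr n)}
    {𝓑 : Finset (Fin (l + 1) → Lam l → Fin n)}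
    {CC : (Fin (l + 1) → Lam l → Fin n) → XX l → Fin (l + 1) → Finset (Fin n)}
    (hCC : ∀ V ∈ 𝓑, ∀ α : XX l, Big K (CC V α) ∧
      ∀ f, PC (l + 1 + 1) (gr E) f → Function.Injective (fun i => f (V i (α i))) ∨ Cst (CC V α) f)
    {c : Cg (JJ l) l n} (hgd : Gd (gr E) c) (hcA : (fun j a => (c j a).2) ∈ Arrs 𝓑 CC) :
    ¬ Alive (l + 1 + 1) (gr (E ∪ gadN c)) := by
  rintro ⟨f, hf⟩
  obtain ⟨V, hV, hV1, hV2⟩ := (Finset.mem_filter.1 hcA).2
  have hfE : PC (l + 1 + 1) (gr E) f := hf.anti (gr_mono Finset.subset_union_left)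
  by_cases hcst : ∃ α : XX l, Cst (CC V α) f
  · obtain ⟨α, π, hπ⟩ := hcst
    refine kill_one hgd hf (jr α) (fun i' => π i'.castSucc.castSucc) ?_ ?_
    · intro i j hij
      exact Fin.castSucc_injective _ (Fin.castSucc_injective _ (π.injective hij))
    · intro a i'
      exact hπ i'.castSucc _ (hV2 α a i')
  · push Not at hcst
    have hinj : ∀ α : Fin (l + 1) → Lam l, Function.Injective (fun i => f (V i (α i))) := by
      intro α
      rcases (hCC V hV α).2 f hfE with h2 | h2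
      · exact h2
      · exact absurd h2 (hcst α)
    obtain ⟨i, hi⟩ := box_mono (m := l + 1) (by omega) (fun i x => f (V i x)) hinj
    refine kill_one hgd hf (jl i) (fun i' => f (V (i.succAbove i') (lam i 0))) ?_ ?_
    · intro j j' hjj
      exact Fin.succAbove_right_injective (hinj (fun _ => lam i 0) hjj)
    · intro a i'
      have h2 : (c (jl i) a).2 i' = V (i.succAbove i') (lam i a) := hV1 i a i'
      rw [h2]
      exact hi _ (Fin.succAbove_ne i i') _ _

theorem mq_kf (l K B K₄ : ℕ) : ∃ (J : Type) (_ : Fintype J) (Γ n₀ : ℕ), ∀ n ≥ n₀,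
    ∀ E : Finset (Pr n), MQ (l + 1) K B E → ManyIso K₄ (gr E) → KF J l Γ E := by
  obtain ⟨B', hB'⟩ := blow (l + 1) B (Lam l)
  obtain ⟨Γ, n₀, hΓ⟩ := cnt_new (JJ l) l (B' * K ^ (Fintype.card (XX l) * 3 * l)) K₄
  refine ⟨JJ l, inferInstance, Γ, max n₀ 1, fun n hn E hQ hiso => ?_⟩
  have hn0 : n₀ ≤ n := (le_max_left _ _).trans hn
  have hn1 : 1 ≤ n := (le_max_right _ _).trans hn
  obtain ⟨𝓑, h𝓑⟩ : ∃ 𝓑 : Finset (Fin (l + 1) → Lam l → Fin n), 𝓑 =
      univ.filter (fun V => ∀ α : Fin (l + 1) → Lam l, (fun i => V i (α i)) ∈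
        univ.filter (fun v => QR (l + 1) K E v)) := ⟨_, rfl⟩
  have h1 : n ^ ((l + 1) * Fintype.card (Lam l)) ≤ B' * 𝓑.card := by
    rw [h𝓑]
    exact hB' n _ hQ
  have hC : ∀ (V : Fin (l + 1) → Lam l → Fin n) (α : XX l),
      ∃ C : Fin (l + 1) → Finset (Fin n), V ∈ 𝓑 → (Big K C ∧
        ∀ f, PC (l + 1 + 1) (gr E) f → Function.Injective (fun i => f (V i (α i))) ∨ Cst C f) := by
    intro V α
    by_cases hV : V ∈ 𝓑
    · have hV' := hV
      rw [h𝓑, Finset.mem_filter] at hV'
      obtain ⟨C, hC⟩ := (Finset.mem_filter.1 (hV'.2 α)).2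
      exact ⟨C, fun _ => hC⟩
    · exact ⟨fun _ => ∅, fun h => absurd h hV⟩
  choose CC hCC using hC
  have hfin := hΓ n hn0 E (Arrs 𝓑 CC) hiso
    (count_all hn1 𝓑 CC (fun V hV α => (hCC V α hV).1) h1)
  refine hfin.trans (Nat.mul_le_mul_left _ (Finset.card_le_card ?_))
  intro c hc
  rw [Finset.mem_filter] at hc
  rw [Kil, Finset.mem_filter]
  exact ⟨Finset.mem_univ _, hc.2.1, kills (fun V hV α => hCC V α hV) hc.2.1 hc.2.2⟩

end Pool.Agent.Work.MP_73831e_pr.F
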