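import Pool.Agent.Work.MP_73831e_pr.F.P.Plant
import Pool.Agent.Work.MP_73831e_pr.F.K.CluK
import Pool.Agent.Work.MP_73831e_pr.F.K.CluE
import Pool.Agent.Work.MP_73831e_pr.F.K.QRK
import Pool.Agent.Work.MP_73831e_pr.F.K.QRE

/-!
MODULE K/Small (S).  Consequences of the planting theorem: if the success probability tends to 0,
then the process does not meet (up to time `C n`) a graph in `Fa` whose colourings form at most `R`
clusters, nor a graph in `Fa` with many quasi-rainbow `m`-tuples.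

`plant` with `Kp n E = Clu (l+1) R K E` (increasing: fewer colourings), `clu_early`, `clu_kf`,
and with `Kp n E = MQ (l+1) K B E` (increasing: fewer colourings, so more quasi-rainbow tuples),
`mq_early`, `mq_kf`.
-/

open Finset Filter Topology
open scoped Classical Nat

namespace Pool.Agent.Work.MP_73831e_pr.F

theorem Clu.mono {n m R K : ℕ} {E F : Finset (Pr n)} (h : E ⊆ F) (hE : Clu m R K E) :
    Clu m R K F := by
  obtain ⟨C, hC, hf⟩ := hE
  exact ⟨C, hC, fun f hF => hf f (hF.anti (gr_mono h))⟩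

theorem QR.mono {n m K j : ℕ} {E F : Finset (Pr n)} (h : E ⊆ F) {v : Fin j → Fin n}
    (hE : QR m K E v) : QR m K F v := by
  obtain ⟨C, hC, hf⟩ := hE
  exact ⟨C, hC, fun f hF => hf f (hF.anti (gr_mono h))⟩

theorem MQ.mono {n m K B : ℕ} {E F : Finset (Pr n)} (h : E ⊆ F) (hE : MQ m K B E) :
    MQ m K B F := by
  unfold MQ at hE ⊢
  refine hE.trans (Nat.mul_le_mul_left _ (Finset.card_le_card ?_))
  intro v hv
  rw [Finset.mem_filter] at hv ⊢
  exact ⟨hv.1, hv.2.mono h⟩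

theorem clu_small {l M C K₁ K₃ K₄ : ℕ} (hM : 3 * l + 4 ≤ M) (hty : Typical (l + 1) C K₁ K₃ K₄)
    (R K : ℕ) (hS : Tendsto (fun n => prob (fun ω : Ordr (Pr n) => Suc (l + 1) M ω)) atTop (𝓝 0)) :
    Tendsto (fun n => prob (fun ω : Ordr (Pr n) =>
      ∃ t ≤ C * n, Fa (l + 1) M (pre ω t) ∧ Clu (l + 1) R K (pre ω t))) atTop (𝓝 0) := by
  refine plant hM hty (fun n E => Clu (l + 1) R K E) (fun n E F h hE => hE.mono h) ?_ ?_ hS
  · exact clu_early (l + 1) R K (by omega)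
  · obtain ⟨Γ, n₀, h⟩ := clu_kf l R K K₄
    exact ⟨Fin R, inferInstance, Γ, n₀, h⟩

theorem mq_small {l M C K₁ K₃ K₄ : ℕ} (hl : 1 ≤ l) (hM : 3 * l + 4 ≤ M)
    (hty : Typical (l + 1) C K₁ K₃ K₄) (K B : ℕ)
    (hS : Tendsto (fun n => prob (fun ω : Ordr (Pr n) => Suc (l + 1) M ω)) atTop (𝓝 0)) :
    Tendsto (fun n => prob (fun ω : Ordr (Pr n) =>
      ∃ t ≤ C * n, Fa (l + 1) M (pre ω t) ∧ MQ (l + 1) K B (pre ω t))) atTop (𝓝 0) := by
  refine plant hM hty (fun n E => MQ (l + 1) K B E) (fun n E F h hE => hE.mono h) ?_ ?_ hS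
  · exact mq_early (l + 1) K B (by omega)
  · exact mq_kf l K B K₄

end Pool.Agent.Work.MP_73831e_pr.F
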